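import Pool.Agent.helper13.RF.SpecU

/-!
# Project RF stage 2, row `rf:HA3`
-/

set_option autoImplicit false

namespace Pool.Agent.RF

open NumberField

/-- the factorization of a product of prime powers -/
theorem HA3_fac (S : Finset ℕ) (hS : ∀ l ∈ S, l.Prime) (e : ℕ → ℕ) :
    (∏ l ∈ S, l ^ e l) ≠ 0 ∧ ∀ q : ℕ, (∏ l ∈ S, l ^ e l).factorization q = if q ∈ S then e q else 0 := by
  classical
  induction S using Finset.induction_on with
  | empty => simp
  | insert a S ha ih =>
    have ha' : a.Prime := hS a (Finset.mem_insert_self a S)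
    obtain ⟨h1, h2⟩ := ih fun l hl => hS l (Finset.mem_insert_of_mem hl)
    have h3 : a ^ e a ≠ 0 := pow_ne_zero _ ha'.ne_zero
    rw [Finset.prod_insert ha]
    refine ⟨mul_ne_zero h3 h1, fun q => ?_⟩
    rw [Nat.factorization_mul h3 h1, ha'.factorization_pow, Finsupp.add_apply, h2 q]
    by_cases hq : q = a
    · subst hq
      rw [Finsupp.single_eq_same, if_neg ha, if_pos (Finset.mem_insert_self q S), add_zero]
    · rw [Finsupp.single_apply, if_neg (Ne.symm hq), zero_add]
      by_cases hqS : q ∈ S
      · rw [if_pos hqS, if_pos (Finset.mem_insert_of_mem hqS)]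
      · rw [if_neg hqS, if_neg]
        rw [Finset.mem_insert]
        push Not
        exact ⟨hq, hqS⟩

/-- **Row HA3** -/
theorem HA3 : HA3_stmt := by
  classical
  intro f p hf
  have hf0 : f ≠ 0 := hf.ne'
  obtain ⟨S, hS⟩ : ∃ S : Finset ℕ, S = f.primeFactors.filter (fun l : ℕ => ((l : ℕ) : ℤ) ∣ p.n.norm) := ⟨_, rfl⟩
  have hSp : ∀ l ∈ S, l.Prime := by
    intro l hl
    rw [hS, Finset.mem_filter] at hl
    exact Nat.prime_of_mem_primeFactors hl.1
  have hSf : ∀ l ∈ S, 1 ≤ f.factorization l := by
    intro l hl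
    rw [hS, Finset.mem_filter] at hl
    exact (Nat.prime_of_mem_primeFactors hl.1).factorization_pos_of_dvd hf0 (Nat.dvd_of_mem_primeFactors hl.1)
  obtain ⟨hg0, hgf⟩ := HA3_fac S hSp fun l => (f.factorization l + 14) / 15
  have hgU : gUb f p = ∏ l ∈ S, l ^ ((f.factorization l + 14) / 15) := by
    rw [gUb, hS]
  rw [← hgU] at hg0 hgf
  have hgd : ∀ l : ℕ, l.Prime → (l ∣ gUb f p ↔ l ∈ S) := by
    intro l hl
    have h1 : l ∣ gUb f p ↔ (gUb f p).factorization l ≠ 0 := by
      constructor
      · intro h
        exact (hl.factorization_pos_of_dvd hg0 h).ne'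
      · intro h
        by_contra hc
        exact h (Nat.factorization_eq_zero_of_not_dvd hc)
    rw [h1, hgf l]
    by_cases hlS : l ∈ S
    · have := hSf l hlS
      rw [if_pos hlS]
      constructor
      · intro _
        exact hlS
      · intro _
        omega
    · rw [if_neg hlS]
      constructor
      · intro h
        exact absurd rfl h
      · intro h
        exact absurd h hlS
  have hgpf : (gUb f p).primeFactors = S := by
    ext l
    rw [Nat.mem_primeFactors]
    constructor
    · rintro ⟨h1, h2, -⟩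
      exact (hgd l h1).mp h2
    · intro h
      exact ⟨hSp l h, (hgd l (hSp l h)).mpr h, hg0⟩
  obtain ⟨hh0, hhf⟩ := HA3_fac S hSp fun l => f.factorization l - (f.factorization l + 14) / 15
  have hhU : hU f (gUb f p) = ∏ l ∈ S, l ^ (f.factorization l - (f.factorization l + 14) / 15) := by
    rw [hU, hgpf]
  rw [← hhU] at hh0 hhf
  obtain ⟨hF0, hFf⟩ := HA3_fac f.primeFactors (fun l hl => Nat.prime_of_mem_primeFactors hl)
    fun l => if l ∣ gUb f p then (f.factorization l + 14) / 15 else f.factorization l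
  have hFU : fU f (gUb f p) = ∏ l ∈ f.primeFactors, l ^ (if l ∣ gUb f p then (f.factorization l + 14) / 15 else f.factorization l) := rfl
  rw [← hFU] at hF0 hFf
  refine ⟨?_, ?_, ?_, Nat.pos_of_ne_zero hg0, Nat.pos_of_ne_zero hh0, ?_, ?_, ?_⟩
  · rw [← Nat.factorization_le_iff_dvd (mul_ne_zero hg0 hh0) hf0]
    intro q
    rw [Nat.factorization_mul hg0 hh0, Finsupp.add_apply, hgf q, hhf q]
    by_cases hq : q ∈ S
    · have := hSf q hq
      rw [if_pos hq, if_pos hq]
      omega
    · rw [if_neg hq, if_neg hq]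
      omega
  · rw [← Nat.factorization_le_iff_dvd hh0 (pow_ne_zero 14 hg0)]
    intro q
    rw [Nat.factorization_pow, Finsupp.smul_apply, hgf q, hhf q, smul_eq_mul]
    by_cases hq : q ∈ S
    · rw [if_pos hq, if_pos hq]
      omega
    · rw [if_neg hq, if_neg hq]
  · refine Nat.eq_of_factorization_eq (mul_ne_zero hF0 hh0) hf0 fun q => ?_
    rw [Nat.factorization_mul hF0 hh0, Finsupp.add_apply, hFf q, hhf q]
    by_cases hqf : q ∈ f.primeFactors
    · have hqp : q.Prime := Nat.prime_of_mem_primeFactors hqf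
      rw [if_pos hqf]
      by_cases hq : q ∈ S
      · have := hSf q hq
        rw [if_pos ((hgd q hqp).mpr hq), if_pos hq]
        omega
      · rw [if_neg (fun h => hq ((hgd q hqp).mp h)), if_neg hq, add_zero]
    · have hqS : q ∉ S := by
        intro h
        rw [hS, Finset.mem_filter] at h
        exact hqf h.1
      rw [if_neg hqf, if_neg hqS, add_zero]
      rw [← Nat.support_factorization, Finsupp.notMem_support_iff] at hqf
      exact hqf.symm
  · simp [hU]
  · obtain ⟨hA0, hAf⟩ := HA3_fac f.primeFactors (fun l hl => Nat.prime_of_mem_primeFactors hl)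
      fun l => if l ∣ 1 then (f.factorization l + 14) / 15 else f.factorization l
    refine Nat.eq_of_factorization_eq hA0 hf0 fun q => ?_
    have h1 : (fU f 1).factorization q = if q ∈ f.primeFactors then (if q ∣ 1 then (f.factorization q + 14) / 15 else f.factorization q) else 0 := hAf q
    rw [h1]
    by_cases hqf : q ∈ f.primeFactors
    · have hqp : q.Prime := Nat.prime_of_mem_primeFactors hqf
      rw [if_pos hqf, if_neg]
      exact fun h => hqp.one_lt.ne' (Nat.dvd_one.mp h)
    · rw [if_neg hqf]
      rw [← Nat.support_factorization, Finsupp.notMem_support_iff] at hqf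
      exact hqf.symm
  · intro l hl
    rw [hgd l hl, hS, Finset.mem_filter, Nat.mem_primeFactors]
    constructor
    · rintro ⟨⟨-, h1, -⟩, h2⟩
      exact ⟨h1, h2⟩
    · rintro ⟨h1, h2⟩
      exact ⟨⟨hl, h1, hf0⟩, h2⟩

end Pool.Agent.RF
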